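import Pool.Agent.W845.DH.Stm

/-!
Project DH (helper845), task DH-ABSORB: absorbing the remaining vertices.
-/

set_option autoImplicit false
open scoped Classical
open Filter Topology

namespace Pool.Agent.W349.DH

open Pool.Agent.W845.DH

lemma absorb_aux (hS : S_SWM) {V : Type} [Fintype V] (D : V → V → Prop) : ∀ (k : ℕ)
    (τ : Equiv.Perm V) (A : Finset (V × V)), (∀ v, τ v = v ∨ D v (τ v)) → (∃ v, τ v ≠ v) →
    (∀ x y, τ x ≠ x → τ y ≠ y → τ.SameCycle x y) → (∀ e ∈ A, τ e.1 = e.2 ∧ e.1 ≠ e.2) →
    (Finset.univ.filter (fun v => τ v = v)).card = k →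
    (∀ v, τ v = v → k ≤ (A.filter (fun e => D e.1 v ∧ D v e.2)).card) → HamD D := by
  intro k
  induction k with
  | zero =>
    intro τ A h1 _ h3 _ hk _
    have hne : ∀ v, τ v ≠ v := by
      intro v hv
      have : v ∈ Finset.univ.filter (fun v => τ v = v) := by simp [hv]
      rw [Finset.card_eq_zero.1 hk] at this
      exact absurd this (Finset.notMem_empty v)
    exact ⟨τ, fun v => (h1 v).resolve_left (hne v), fun u v => h3 u v (hne u) (hne v)⟩
  | succ k ih =>
    intro τ A h1 h2 h3 h4 hk h5
    obtain ⟨v, hv⟩ : ∃ v, v ∈ Finset.univ.filter (fun v => τ v = v) := by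
      apply Finset.card_pos.1
      omega
    rw [Finset.mem_filter] at hv
    have hv := hv.2
    obtain ⟨e, he⟩ : ∃ e, e ∈ A.filter (fun e => D e.1 v ∧ D v e.2) := by
      apply Finset.card_pos.1
      have := h5 v hv
      omega
    rw [Finset.mem_filter] at he
    obtain ⟨heA, hav, hvb⟩ := he
    obtain ⟨hab, hne⟩ := h4 e heA
    set a := e.1 with ha
    have hav' : a ≠ v := by
      intro h
      apply hne
      rw [← hab, h, hv]
    have hanf : τ a ≠ a := by rw [hab]; exact hne.symm
    have hbv : e.2 ≠ v := by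
      intro h
      apply hav'
      apply τ.injective
      rw [hab, h, hv]
    have hnS : ¬ τ.SameCycle a v := fun h => hav' (h.eq_of_right hv)
    set τ' := τ * Equiv.swap a v with hτ'
    have t1 : τ' a = v := by
      rw [hτ', Equiv.Perm.mul_apply, Equiv.swap_apply_left, hv]
    have t2 : τ' v = e.2 := by
      rw [hτ', Equiv.Perm.mul_apply, Equiv.swap_apply_right, hab]
    have t3 : ∀ x, x ≠ a → x ≠ v → τ' x = τ x := by
      intro x hx1 hx2
      rw [hτ', Equiv.Perm.mul_apply, Equiv.swap_apply_of_ne_of_ne hx1 hx2]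
    have hfix : ∀ w, τ' w = w → w ≠ a ∧ w ≠ v ∧ τ w = w := by
      intro w hw
      have c1 : w ≠ a := by
        rintro rfl
        rw [t1] at hw
        exact hav' hw.symm
      have c2 : w ≠ v := by
        rintro rfl
        rw [t2] at hw
        exact hbv hw
      exact ⟨c1, c2, by rw [← t3 w c1 c2]; exact hw⟩
    refine ih τ' (A.erase e) ?_ ?_ ?_ ?_ ?_ ?_
    · intro x
      by_cases hx1 : x = a
      · right; rw [hx1, t1]; exact hav
      by_cases hx2 : x = v
      · right; rw [hx2, t2]; exact hvb
      rw [t3 x hx1 hx2]; exact h1 x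
    · exact ⟨a, by rw [t1]; exact hav'.symm⟩
    · intro x y hx hy
      rw [(hS V τ a v hnS).1 x y]
      right
      have key : ∀ z, τ' z ≠ z → (τ.SameCycle a z ∨ τ.SameCycle v z) := by
        intro z hz
        by_cases hz1 : z = a
        · left; rw [hz1]
        by_cases hz2 : z = v
        · right; rw [hz2]
        left
        rw [t3 z hz1 hz2] at hz
        exact h3 a z hanf hz
      exact ⟨key x hx, key y hy⟩
    · intro f hf
      rw [Finset.mem_erase] at hf
      obtain ⟨hfe, hfA⟩ := hf
      obtain ⟨g1, g2⟩ := h4 f hfA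
      have c1 : f.1 ≠ a := by
        intro h
        apply hfe
        refine Prod.ext (h.trans ha) ?_
        rw [← g1, h, hab]
      have c2 : f.1 ≠ v := by
        intro h
        apply g2
        rw [← g1, h, hv]
      exact ⟨by rw [t3 _ c1 c2]; exact g1, g2⟩
    · have hE : Finset.univ.filter (fun w => τ' w = w) =
          (Finset.univ.filter (fun w => τ w = w)).erase v := by
        ext w
        rw [Finset.mem_erase, Finset.mem_filter, Finset.mem_filter]
        constructor
        · rintro ⟨-, hw⟩
          obtain ⟨c1, c2, c3⟩ := hfix w hw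
          exact ⟨c2, Finset.mem_univ _, c3⟩
        · rintro ⟨c2, -, c3⟩
          refine ⟨Finset.mem_univ _, ?_⟩
          have c1 : w ≠ a := by
            rintro rfl
            exact hanf c3
          rw [t3 w c1 c2]; exact c3
      rw [hE, Finset.card_erase_of_mem (by simp [hv]), hk]
      rfl
    · intro w hw
      obtain ⟨c1, c2, c3⟩ := hfix w hw
      have h6 := h5 w c3
      have h7 : (A.filter (fun e => D e.1 w ∧ D w e.2)).card ≤
          ((A.erase e).filter (fun e => D e.1 w ∧ D w e.2)).card + 1 := by
        rw [Finset.filter_erase]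
        have h8 := Finset.pred_card_le_card_erase (s := A.filter (fun e => D e.1 w ∧ D w e.2))
          (a := e)
        omega
      omega

theorem absorb : S_SWM → S_ABSORB := by
  intro hS V _ D τ A h1 h2 h3 h4 h5
  exact absorb_aux hS D _ τ A h1 h2 h3 h4 rfl h5

end Pool.Agent.W349.DH
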